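import Pool.Agent.Helper44.EX.Out

/-!
# Direct sums of groups of the form `Ext(A, B)` and cotorsion groups

The class of the groups isomorphic to some `Ext(A, B)` is closed under direct sums if and only if it
contains all cotorsion groups, that is all groups `G` with `Ext(ℚ, G) = 0`.

Proof. The groups `Ext(A, B)` are cotorsion (classical; we prove it again), and direct sums of cotorsion
groups are cotorsion. For the converse, let the class be closed under direct sums. A cotorsion group is
the direct sum of a divisible group `D` and a reduced cotorsion group `C`, and `C` is `Ext(ℚ / ℤ, C)`
(classical; proved again). The group `D` is the direct sum of a divisible group without elements of order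
`2` and a divisible group without elements of order `3`. So we need: for a prime `q`, every divisible group
`D` without elements of order `q` is of the form `Ext(A, B)`. Choose a surjection from a product `C` of
copies of the `q`-adic integers onto `D` (`D` is injective) and let `B` be the kernel. As multiplication by
`q` is bijective on `C / B = D`, the `q`-adic completion of `B` is `C`, and so `Ext(ℤ[1/q], B) = C / B = D`.
-/

set_option autoImplicit false

namespace Pool.Agent.Results.MP_51b9a2_al.CotorsionGroups

open Pool.Agent.Helper44.EX

/-- **Groups of the form `Ext(A, B)` are closed under direct sums if and only if all cotorsion groups are
of this form.** -/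
theorem result : ClosedUnderSums ↔ ∀ (G : Type) [AddCommGroup G], Cotorsion G → IsExt G :=
  closed_iff

end Pool.Agent.Results.MP_51b9a2_al.CotorsionGroups
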