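import Pool.Agent.Helper44.EX.Out

/-!
# Direct sums of divisible groups and reduced cotorsion groups which are of the form `Ext(A, B)`

Let `D` be a divisible group and `C` a reduced cotorsion group. We show that `D ⊕ C` is isomorphic to some
`Ext(A, B)` if there is a prime `q` such that `D` has no elements of order `q` and `C` is uniquely
`q`-divisible, and if for all primes `l` the group `D` has no elements of order `l` or `C` is uniquely
`l`-divisible. So for a prime `q` and two groups `G` and `H` of the form `Ext(A, B)` on which multiplication
by `q` is bijective and which contain no group `ℤ(l^∞)`, `l` a prime (for instance for torsion-free `G` and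
`H`), the direct sum of `G` and `H` is of this form.

Proof. Choose a surjection from a product `P` of copies of the `q`-adic integers onto `D`, with kernel `B`.
Then `Ext(ℤ[1/q], B) = D`, and `B` is `l`-divisible for all primes `l ≠ q` such that `D` has no elements of
order `l`. Let `S` be the set of the primes `l` such that `C` is not uniquely `l`-divisible, and `T` the
direct sum of the groups `ℤ(l^∞)` with `l` in `S`. Then `Ext(T, C) = C`, `Ext(T, B) = 0` and
`Ext(ℤ[1/q], C) = 0`, so that `Ext(ℤ[1/q] ⊕ T, B ⊕ C) = D ⊕ C`.
-/

set_option autoImplicit false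

namespace Pool.Agent.Results.MP_51b9a2_al.DisjointPrimes

open Pool.Agent.Helper44.EX

/-- **Groups of the form `Ext(A, B)`: divisible and reduced parts at different primes.** -/
theorem result (q : ℕ) (hq : q.Prime) :
    (∀ (D C : Type) [AddCommGroup D] [AddCommGroup C], Divisible D → Cotorsion C → Reduced C →
      NoTorsion q D → UniquelyDivisible q C →
      (∀ l : ℕ, l.Prime → NoTorsion l D ∨ UniquelyDivisible l C) → IsExt (D × C)) ∧
    (∀ (G H : Type) [AddCommGroup G] [AddCommGroup H], IsExt G → IsExt H →
      UniquelyDivisible q G → UniquelyDivisible q H → NoQuasicyclic G → NoQuasicyclic H →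
      IsExt (G × H)) :=
  ⟨fun D C _ _ h1 h2 h3 h4 h5 h6 => mix q hq D C h1 h4 h2 h3 h5 h6,
    fun G H _ _ h1 h2 h3 h4 h5 h6 => torsionfree_sum q hq G H h1 h2 h3 h4 h5 h6⟩

end Pool.Agent.Results.MP_51b9a2_al.DisjointPrimes
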